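import Pool.Agent.W525.CB.Stm

/-! CB-NORM (helper168, for helper525): normality of cyclic covers of the affine space -/

set_option autoImplicit false
open Polynomial
namespace Pool.Agent.W168.CB

/-- the discriminant argument -/
theorem core (P F E : Type) [CommRing P] [IsDomain P] [IsIntegrallyClosed P] [Field F] [Algebra P F]
    [IsFractionRing P F] [Field E] [Algebra F E] [Algebra P E] [IsScalarTower P F E] (c : P) (x₀ : E)
    (q : ℕ) (hodd : Odd q) (hq : (q : F) ≠ 0) (hx0 : x₀ ≠ 0) (hxq : x₀ ^ q = algebraMap P E c)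
    (hirr : Irreducible (X ^ q - C (algebraMap P F c) : F[X])) (e : E)
    (he : e ∈ IntermediateField.adjoin F {x₀}) (hint : IsIntegral P e) :
    ∃ w ∈ Algebra.adjoin P ({x₀} : Set E), ∃ n : ℕ,
      (-1) ^ n * ((q : E) ^ q * (algebraMap P E c) ^ (q - 1)) * e = w := by
  have hq0 : 0 < q := hodd.pos
  have hc0 : algebraMap P F c ≠ 0 := by
    intro h
    rw [IsScalarTower.algebraMap_apply P F E, h, map_zero] at hxq
    exact hx0 (pow_eq_zero_iff hq0.ne' |>.1 hxq)
  have hmin : minpoly F x₀ = X ^ q - C (algebraMap P F c) := by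
    symm
    apply minpoly.eq_of_irreducible_of_monic hirr
    · simp only [map_sub, map_pow, aeval_X, aeval_C]
      rw [hxq, IsScalarTower.algebraMap_apply P F E, sub_self]
    · exact monic_X_pow_sub_C _ hq0.ne'
  have hintF : IsIntegral F x₀ := by
    refine ⟨X ^ q - C (algebraMap P F c), monic_X_pow_sub_C _ hq0.ne', ?_⟩
    rw [← aeval_def]
    simp only [map_sub, map_pow, aeval_X, aeval_C]
    rw [hxq, IsScalarTower.algebraMap_apply P F E, sub_self]
  have hsep : IsSeparable F x₀ := by
    unfold IsSeparable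
    rw [hmin]
    exact separable_X_pow_sub_C _ hq hc0
  have hsepL : Algebra.IsSeparable F (IntermediateField.adjoin F {x₀}) :=
    (IntermediateField.isSeparable_adjoin_simple_iff_isSeparable F E).2 hsep
  have hfin : FiniteDimensional F (IntermediateField.adjoin F {x₀}) :=
    IntermediateField.adjoin.finiteDimensional hintF
  obtain ⟨pb, hpb⟩ : ∃ pb : PowerBasis F (IntermediateField.adjoin F {x₀}),
      pb.gen = IntermediateField.AdjoinSimple.gen F x₀ :=
    ⟨IntermediateField.adjoin.powerBasis hintF, IntermediateField.adjoin.powerBasis_gen hintF⟩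
  have hgen : (pb.gen : E) = x₀ := by
    rw [hpb]
    exact IntermediateField.AdjoinSimple.coe_gen F x₀
  have hgmin : minpoly F pb.gen = X ^ q - C (algebraMap P F c) := by
    rw [← hmin, ← minpoly.algebraMap_eq (algebraMap (IntermediateField.adjoin F {x₀}) E).injective
      pb.gen]
    show minpoly F (pb.gen : E) = _
    rw [hgen]
  have hgenq : pb.gen ^ q = algebraMap P (IntermediateField.adjoin F {x₀}) c := by
    apply (algebraMap (IntermediateField.adjoin F {x₀}) E).injective
    rw [map_pow]
    show (pb.gen : E) ^ q = _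
    rw [hgen, hxq]
    rfl
  have hgenint : IsIntegral P pb.gen := by
    apply IsIntegral.of_pow hq0
    rw [hgenq]
    exact isIntegral_algebraMap
  have heint : IsIntegral P (⟨e, he⟩ : IntermediateField.adjoin F {x₀}) := by
    obtain ⟨p, hp1, hp2⟩ := hint
    refine ⟨p, hp1, ?_⟩
    apply (algebraMap (IntermediateField.adjoin F {x₀}) E).injective
    rw [map_zero, ← hp2, Polynomial.hom_eval₂]
    rfl
  have hmain := Algebra.discr_mul_isIntegral_mem_adjoin (R := P) F hgenint heint
  have hdisc : Algebra.discr F pb.basis = (-1) ^ (pb.dim * (pb.dim - 1) / 2) *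
      ((q : F) ^ q * (algebraMap P F c) ^ (q - 1)) := by
    have hdim : pb.dim = q := by
      rw [← pb.natDegree_minpoly, hgmin, natDegree_X_pow_sub_C]
    have hnorm : Algebra.norm F pb.gen = algebraMap P F c := by
      rw [Algebra.PowerBasis.norm_gen_eq_coeff_zero_minpoly, hgmin, hdim, hodd.neg_one_pow, coeff_sub,
        coeff_X_pow, if_neg (by omega), coeff_C_zero]
      ring
    have hder : aeval pb.gen (derivative (X ^ q - C (algebraMap P F c) : F[X])) =
        algebraMap F (IntermediateField.adjoin F {x₀}) (q : F) * pb.gen ^ (q - 1) := by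
      rw [derivative_sub, derivative_C, sub_zero, derivative_X_pow, map_mul, aeval_C, map_pow,
        aeval_X]
    rw [Algebra.discr_powerBasis_eq_norm, hgmin, hder, map_mul, map_pow, hnorm,
      Algebra.norm_algebraMap, pb.finrank, hdim]
  have hcoe : ∀ y ∈ Algebra.adjoin P ({pb.gen} : Set (IntermediateField.adjoin F {x₀})),
      (y : E) ∈ Algebra.adjoin P ({x₀} : Set E) := by
    intro y hy
    induction hy using Algebra.adjoin_induction with
    | mem y hy =>
      rw [Set.mem_singleton_iff] at hy
      rw [hy, hgen]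
      exact Algebra.subset_adjoin (Set.mem_singleton _)
    | algebraMap r =>
      exact Subalgebra.algebraMap_mem (Algebra.adjoin P ({x₀} : Set E)) r
    | add a b _ _ ha hb =>
      exact add_mem ha hb
    | mul a b _ _ ha hb =>
      exact mul_mem ha hb
  refine ⟨_, hcoe _ hmain, pb.dim * (pb.dim - 1) / 2, ?_⟩
  rw [hdisc]
  rw [Algebra.smul_def]
  show _ = algebraMap F E ((-1) ^ (pb.dim * (pb.dim - 1) / 2) *
      ((q : F) ^ q * (algebraMap P F c) ^ (q - 1))) * e
  rw [map_mul, map_mul, map_pow, map_pow, map_pow, map_neg, map_one, map_natCast,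
    ← IsScalarTower.algebraMap_apply P F E]

/-- irreducibility -/
theorem irr (k : Type) [Field k] (ι : Type) (q : ℕ) (c : MvPolynomial ι k)
    (θ : MvPolynomial ι k →ₐ[k] k[X]) (hodd : Odd q) (hq : (q : k) ≠ 0)
    (hθ : θ c = -(X ^ q + 1)) (F : Type) [Field F] [Algebra (MvPolynomial ι k) F]
    [IsFractionRing (MvPolynomial ι k) F] :
    Irreducible (X ^ q - C (algebraMap (MvPolynomial ι k) F c) : F[X]) := by
  apply X_pow_sub_C_irreducible_of_odd hodd
  intro l hl _ b hb
  have hint : IsIntegral (MvPolynomial ι k) (b ^ l) := by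
    rw [hb]
    exact isIntegral_algebraMap
  obtain ⟨β, hβ⟩ := IsIntegrallyClosed.exists_algebraMap_eq_of_isIntegral_pow hl.pos hint
  have h1 : β ^ l = c := by
    apply IsFractionRing.injective (MvPolynomial ι k) F
    rw [map_pow, hβ, hb]
  have h2 : (θ β) ^ l = -(X ^ q + 1) := by rw [← map_pow, h1, hθ]
  have hsf : Squarefree (X ^ q + 1 : k[X]) := by
    have := (separable_X_pow_sub_C (-1 : k) hq (neg_ne_zero.2 one_ne_zero)).squarefree
    rwa [map_neg, map_one, sub_neg_eq_add] at this
  have h3 : θ β * θ β ∣ X ^ q + 1 := by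
    rw [← dvd_neg, ← h2, ← pow_two]
    exact pow_dvd_pow _ hl.two_le
  have h4 : IsUnit (θ β) := hsf _ h3
  have h5 : IsUnit (X ^ q + 1 : k[X]) := by
    have h := h4.pow l
    rw [h2] at h
    exact (IsUnit.neg_iff _).1 h
  have h6 := natDegree_eq_zero_of_isUnit h5
  have h7 : (X ^ q + 1 : k[X]).natDegree = q := by
    have h := natDegree_X_pow_add_C (n := q) (r := (1 : k))
    rwa [map_one] at h
  have := hodd.pos
  omega

/-- integrality over the localization -/
theorem loc (P E : Type) [CommRing P] [IsDomain P] [Field E] [Algebra P E] (c : P) (x₀ : E) (q : ℕ)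
    (hq : 0 < q) (hx0 : x₀ ≠ 0) (hxq : x₀ ^ q = algebraMap P E c) (p : E[X]) (hp : p.Monic)
    (hpA : ∀ i, p.coeff i ∈ Algebra.adjoin P ({x₀, x₀⁻¹} : Set E)) (e : E) (he : p.eval e = 0) :
    ∃ N : ℕ, IsIntegral P ((algebraMap P E c) ^ N * e) := by
  have hc0 : algebraMap P E c ≠ 0 := by
    rw [← hxq]
    exact pow_ne_zero _ hx0
  have hu : IsUnit (algebraMap P E c) := hc0.isUnit
  let : Algebra (Localization.Away c) E :=
    (IsLocalization.Away.lift (S := Localization.Away c) c hu).toAlgebra
  have : IsScalarTower P (Localization.Away c) E := IsScalarTower.of_algebraMap_eq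
    (fun x => (IsLocalization.Away.lift_eq (S := Localization.Away c) c hu x).symm)
  have hC : ∀ a ∈ Algebra.adjoin P ({x₀, x₀⁻¹} : Set E), a ∈ integralClosure (Localization.Away c) E := by
    intro a ha
    induction ha using Algebra.adjoin_induction with
    | mem y hy =>
      rcases hy with rfl | hy
      · apply IsIntegral.of_pow hq
        rw [hxq, IsScalarTower.algebraMap_apply P (Localization.Away c) E]
        exact isIntegral_algebraMap
      · rw [Set.mem_singleton_iff] at hy
        subst hy
        apply IsIntegral.of_pow hq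
        have h1 : (x₀⁻¹) ^ q = algebraMap (Localization.Away c) E
            (IsLocalization.Away.invSelf c) := by
          rw [inv_pow, hxq]
          have h2 := congrArg (algebraMap (Localization.Away c) E)
            (IsLocalization.Away.mul_invSelf (S := Localization.Away c) c)
          rw [map_mul, map_one, ← IsScalarTower.algebraMap_apply P (Localization.Away c) E] at h2
          exact (eq_inv_of_mul_eq_one_right h2).symm
        rw [h1]
        exact isIntegral_algebraMap
    | algebraMap r =>
      rw [IsScalarTower.algebraMap_apply P (Localization.Away c) E]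
      exact isIntegral_algebraMap
    | add a b _ _ ha hb => exact add_mem ha hb
    | mul a b _ _ ha hb => exact mul_mem ha hb
  have h1 : IsIntegral (integralClosure (Localization.Away c) E) e := by
    obtain ⟨p', hp1, hp2, hp3⟩ := lifts_and_natDegree_eq_and_monic
      (f := algebraMap (integralClosure (Localization.Away c) E) E) (p := p)
      ((lifts_iff_coeff_lifts p).2 (fun n => ⟨⟨p.coeff n, hC _ (hpA n)⟩, rfl⟩)) hp
    refine ⟨p', hp3, ?_⟩
    rw [← eval_map, hp1, he]
  have h2 : IsIntegral (Localization.Away c) e := isIntegral_trans e h1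
  obtain ⟨⟨m, N, hm⟩, h3⟩ :=
    IsIntegral.exists_multiple_integral_of_isLocalization (Submonoid.powers c) e h2
  refine ⟨N, ?_⟩
  have h4 : (⟨m, N, hm⟩ : Submonoid.powers c) • e = (algebraMap P E c) ^ N * e := by
    rw [Submonoid.smul_def, Algebra.smul_def]
    congr 1
    show algebraMap P E m = _
    rw [← hm, map_pow]
  rw [h4] at h3
  exact h3

open Pool.Agent.W525.CB in
theorem main : S_NORM := by
  intro k _ E _ _ ι _ z q c x₀ θ hodd hq hz hx0 hxq hθ e he hpe
  obtain ⟨p, hp, hpA, hpe⟩ := hpe
  let instPE : Algebra (MvPolynomial ι k) E :=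
    ((MvPolynomial.aeval z : MvPolynomial ι k →ₐ[k] E) : MvPolynomial ι k →+* E).toAlgebra
  have halg : ∀ r, algebraMap (MvPolynomial ι k) E r = MvPolynomial.aeval z r := fun _ => rfl
  have hinj : Function.Injective (algebraMap (MvPolynomial ι k) E) := hz
  have hfs : FaithfulSMul (MvPolynomial ι k) E := (faithfulSMul_iff_algebraMap_injective _ _).2 hinj
  let instFE : Algebra (FractionRing (MvPolynomial ι k)) E :=
    FractionRing.liftAlgebra (MvPolynomial ι k) E
  have hst : IsScalarTower (MvPolynomial ι k) (FractionRing (MvPolynomial ι k)) E :=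
    FractionRing.isScalarTower_liftAlgebra _ _
  have hqF : (q : FractionRing (MvPolynomial ι k)) ≠ 0 := by
    intro h
    apply hq
    have h1 : algebraMap k (FractionRing (MvPolynomial ι k)) (q : k) = 0 := by
      rw [map_natCast]
      exact h
    exact (map_eq_zero _).1 h1
  have hqE : (q : E) ≠ 0 := by
    intro h
    apply hq
    have h1 : algebraMap k E (q : k) = 0 := by
      rw [map_natCast]
      exact h
    exact (map_eq_zero _).1 h1
  have hirr := irr k ι q c θ hodd hq hθ (FractionRing (MvPolynomial ι k))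
  have hxq' : x₀ ^ q = algebraMap (MvPolynomial ι k) E c := hxq
  obtain ⟨A, hAdef⟩ : ∃ A : Subalgebra k E, A = Algebra.adjoin k (Set.range z ∪ {x₀, x₀⁻¹}) := ⟨_, rfl⟩
  have hzA : ∀ i, z i ∈ A := by
    intro i
    rw [hAdef]
    exact Algebra.subset_adjoin (Or.inl ⟨i, rfl⟩)
  have hxA : x₀ ∈ A := by
    rw [hAdef]
    exact Algebra.subset_adjoin (Or.inr (Or.inl rfl))
  have hxiA : x₀⁻¹ ∈ A := by
    rw [hAdef]
    exact Algebra.subset_adjoin (Or.inr (Or.inr rfl))
  have hPA : ∀ r : MvPolynomial ι k, algebraMap (MvPolynomial ι k) E r ∈ A := by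
    intro r
    rw [halg]
    have h1 : MvPolynomial.aeval z r ∈ Algebra.adjoin k (Set.range z) := by
      rw [Algebra.adjoin_range_eq_range_aeval]
      exact ⟨r, rfl⟩
    rw [hAdef]
    exact Algebra.adjoin_mono Set.subset_union_left h1
  have hA1 : ∀ a ∈ A, a ∈ Algebra.adjoin (MvPolynomial ι k) ({x₀, x₀⁻¹} : Set E) := by
    intro a ha
    rw [hAdef] at ha
    induction ha using Algebra.adjoin_induction with
    | mem y hy =>
      rcases hy with ⟨i, rfl⟩ | hy
      · have h1 : z i = algebraMap (MvPolynomial ι k) E (MvPolynomial.X i) := by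
          rw [halg, MvPolynomial.aeval_X]
        rw [h1]
        exact Subalgebra.algebraMap_mem _ _
      · exact Algebra.subset_adjoin hy
    | algebraMap r =>
      have h1 : algebraMap k E r = algebraMap (MvPolynomial ι k) E (MvPolynomial.C r) := by
        rw [halg, MvPolynomial.aeval_C]
      rw [h1]
      exact Subalgebra.algebraMap_mem _ _
    | add a b _ _ ha hb => exact add_mem ha hb
    | mul a b _ _ ha hb => exact mul_mem ha hb
  have hA2 : ∀ a ∈ Algebra.adjoin (MvPolynomial ι k) ({x₀} : Set E), a ∈ A := by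
    intro a ha
    induction ha using Algebra.adjoin_induction with
    | mem y hy =>
      rw [Set.mem_singleton_iff] at hy
      rw [hy]
      exact hxA
    | algebraMap r => exact hPA r
    | add a b _ _ ha hb => exact add_mem ha hb
    | mul a b _ _ ha hb => exact mul_mem ha hb
  obtain ⟨N, hN⟩ := loc (MvPolynomial ι k) E c x₀ q hodd.pos hx0 hxq' p hp
    (fun i => hA1 _ (by rw [hAdef]; exact hpA i)) e hpe
  have heF : e ∈ IntermediateField.adjoin (FractionRing (MvPolynomial ι k)) ({x₀} : Set E) := by
    have hPF : ∀ r : MvPolynomial ι k, algebraMap (MvPolynomial ι k) E r ∈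
        IntermediateField.adjoin (FractionRing (MvPolynomial ι k)) ({x₀} : Set E) := by
      intro r
      rw [IsScalarTower.algebraMap_apply (MvPolynomial ι k) (FractionRing (MvPolynomial ι k)) E]
      exact IntermediateField.algebraMap_mem _ _
    have hgen : ∀ y ∈ IntermediateField.adjoin k (Set.range z ∪ {x₀}),
        y ∈ IntermediateField.adjoin (FractionRing (MvPolynomial ι k)) ({x₀} : Set E) := ?_
    · exact hgen e he
    intro y hy
    induction hy using IntermediateField.adjoin_induction with
    | mem y hy =>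
      rcases hy with ⟨i, rfl⟩ | hy
      · have h1 : z i = algebraMap (MvPolynomial ι k) E (MvPolynomial.X i) := by
          rw [halg, MvPolynomial.aeval_X]
        rw [h1]
        exact hPF _
      · exact IntermediateField.subset_adjoin _ _ hy
    | algebraMap r =>
      have h1 : algebraMap k E r = algebraMap (MvPolynomial ι k) E (MvPolynomial.C r) := by
        rw [halg, MvPolynomial.aeval_C]
      rw [h1]
      exact hPF _
    | add a b _ _ ha hb => exact add_mem ha hb
    | inv a _ ha => exact inv_mem ha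
    | mul a b _ _ ha hb => exact mul_mem ha hb
  have hcN : (algebraMap (MvPolynomial ι k) E c) ^ N * e ∈
      IntermediateField.adjoin (FractionRing (MvPolynomial ι k)) ({x₀} : Set E) := by
    apply mul_mem _ heF
    apply pow_mem
    rw [IsScalarTower.algebraMap_apply (MvPolynomial ι k) (FractionRing (MvPolynomial ι k)) E]
    exact IntermediateField.algebraMap_mem _ _
  obtain ⟨w, hw, n, hwe⟩ := core (MvPolynomial ι k) (FractionRing (MvPolynomial ι k)) E c x₀ q hodd
    hqF hx0 hxq' hirr _ hcN hN
  have hwA := hA2 w hw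
  obtain ⟨cE, hcE⟩ : ∃ cE : E, cE = algebraMap (MvPolynomial ι k) E c := ⟨_, rfl⟩
  rw [← hcE] at hwe hxq'
  have hcE0 : cE ≠ 0 := by
    rw [← hxq']
    exact pow_ne_zero _ hx0
  have hciA : cE⁻¹ ∈ A := by
    rw [← hxq', ← inv_pow]
    exact pow_mem hxiA q
  have hqiA : (q : E)⁻¹ ∈ A := by
    have h1 : (q : E)⁻¹ = algebraMap k E (q : k)⁻¹ := by
      rw [map_inv₀, map_natCast]
    rw [h1]
    exact A.algebraMap_mem _
  have hfinal : e = (-1) ^ n * (((q : E)⁻¹) ^ q * (cE⁻¹) ^ (q - 1)) * (cE⁻¹) ^ N * w := by
    rw [← hwe]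
    have h1 : ((-1 : E) ^ n) * (-1) ^ n = 1 := by
      rw [← mul_pow]
      norm_num
    have h2 : ((q : E)⁻¹) ^ q * (q : E) ^ q = 1 := by
      rw [← mul_pow, inv_mul_cancel₀ hqE, one_pow]
    have h3 : (cE⁻¹) ^ (q - 1) * cE ^ (q - 1) = 1 := by
      rw [← mul_pow, inv_mul_cancel₀ hcE0, one_pow]
    have h4 : (cE⁻¹) ^ N * cE ^ N = 1 := by
      rw [← mul_pow, inv_mul_cancel₀ hcE0, one_pow]
    calc e = (((-1 : E) ^ n) * (-1) ^ n) * (((q : E)⁻¹) ^ q * (q : E) ^ q) *
        ((cE⁻¹) ^ (q - 1) * cE ^ (q - 1)) * ((cE⁻¹) ^ N * cE ^ N) * e := by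
          rw [h1, h2, h3, h4]
          ring
      _ = _ := by ring
  show e ∈ Algebra.adjoin k (Set.range z ∪ {x₀, x₀⁻¹})
  rw [← hAdef, hfinal]
  refine mul_mem (mul_mem (mul_mem (pow_mem (neg_mem (one_mem A)) n)
    (mul_mem (pow_mem hqiA q) (pow_mem hciA _))) (pow_mem hciA N)) hwA

end Pool.Agent.W168.CB
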